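import Mathlib
import Pool.Agent.TH681.QC.RateG

/-!
# Gel'fond's conjecture for one exponential and one logarithm: all exponents, few exceptions

For every degree bound `D` there is a constant `C` such that for all `x ≥ 16` all but
`C x (log log x) ^ C / log x` of the integers `n` between `1` and `x` have the following property:
for all nonzero algebraic numbers `α` the numbers `e^α` and `log n` satisfy no nonzero polynomial
relation of total degree `≤ D` with algebraic coefficients.
-/

set_option autoImplicit false

namespace Pool.Agent.Results.MP_c82530_nt.AllExponentsRate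

open Pool.Agent.H351R3.Gel Pool.Agent.H297R2

/-- `u` and `x` satisfy no nonzero polynomial relation of total degree at most `D` with algebraic
coefficients. -/
def NoRelation (D : ℕ) (u x : ℂ) : Prop :=
  ∀ P : MvPolynomial (Fin 2) (algebraicClosure ℚ ℂ), P.totalDegree ≤ D →
    MvPolynomial.aeval ![u, x] P = 0 → P = 0

open Classical in
/-- **Main result.** -/
theorem result (D : ℕ) : ∃ C : ℕ, ∀ x : ℕ, 16 ≤ x →
    (((Finset.Icc 1 x).filter fun n : ℕ => ∃ α : ℂ, IsAlgebraic ℚ α ∧ α ≠ 0 ∧
      ¬ NoRelation D (Complex.exp α) (Real.log n : ℂ)).card : ℝ) ≤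
    C * Real.log (Real.log x) ^ C / Real.log x * (x : ℝ) := by
  obtain ⟨C, hC⟩ := Pool.Agent.TH681.QC.rate_gel D
  refine ⟨C, fun x hx => hC x hx _ ?_ ?_⟩
  · intro n hn
    rw [Finset.mem_filter, Finset.mem_Icc] at hn
    rw [Finset.mem_Ioc]
    omega
  · intro n hn
    rw [Finset.mem_filter] at hn
    obtain ⟨_, α, h1, h2, h3⟩ := hn
    unfold NoRelation at h3
    push Not at h3
    obtain ⟨P, hPD, hP, hP0⟩ := h3
    obtain ⟨h4, h5⟩ := degLe_of_rel P hP0 hPD hP
    exact ⟨α, h1, h2, h4, h5⟩

end Pool.Agent.Results.MP_c82530_nt.AllExponentsRate
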